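import Pool.Agent.ZGO.StmtsB

/-!
# Row JTI of ZGO (helper68)

The operator `J` commutes with preimages under `θ`.
-/

set_option autoImplicit false

namespace Pool.Agent.ZGO.H68

variable {P : Type} [Group P] {X : Type} [AddCommGroup X]

theorem mem_Jo (ρ : P →* AddMonoid.End X) (Y : AddSubgroup X) (x : X) :
    x ∈ Jo ρ Y ↔ ∀ g, ρ g x - x ∈ Y := Iff.rfl

theorem mem_comap_iter (θ : X →+ X) (Y : AddSubgroup X) (a : ℕ) (x : X) :
    x ∈ (fun Z : AddSubgroup X => Z.comap θ)^[a] Y ↔ (⇑θ)^[a] x ∈ Y := by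
  induction a generalizing x with
  | zero => rfl
  | succ a ih =>
    rw [Function.iterate_succ_apply', AddSubgroup.mem_comap, ih, Function.iterate_succ_apply]

theorem comm1 {p : ℕ} {ψ : P →* P} {θ : X →+ X} {ρ : P →* AddMonoid.End X} (h : Uni p ψ θ ρ) :
    Function.Commute (Jo ρ) (fun Z : AddSubgroup X => Z.comap θ) := by
  intro Y
  ext x
  have heq := h.sim.shf.eqv
  rw [mem_Jo]
  show (∀ g, ρ g x - x ∈ Y.comap θ) ↔ x ∈ (Jo ρ Y).comap θ
  rw [AddSubgroup.mem_comap, mem_Jo]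
  constructor
  · intro hx g
    have h1 := hx (ψ g)
    rw [AddSubgroup.mem_comap, map_sub, heq] at h1
    exact h1
  · intro hx g
    rw [AddSubgroup.mem_comap]
    obtain ⟨i, hi⟩ := h.sim.shf.nil x
    obtain ⟨e, he, hp⟩ := h.per i
    have h1 : ρ ((⇑ψ)^[e] g) x = ρ g x := sub_eq_zero.1 (hp g 0 x hi)
    obtain ⟨e', rfl⟩ : ∃ e', e = e' + 1 := ⟨e - 1, by omega⟩
    rw [Function.iterate_succ_apply'] at h1
    rw [← h1, map_sub, heq]
    exact hx _

/-- row JTI -/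
theorem jti : JtiStmt := by
  intro P _ p ψ X _ θ ρ h a Y Y' hY m x
  have h1 : Y' = (fun Z : AddSubgroup X => Z.comap θ)^[a] Y := by
    ext y
    rw [hY, mem_comap_iter]
  have h2 := ((comm1 h).iterate_iterate m a).eq Y
  rw [h1, h2, mem_comap_iter]

end Pool.Agent.ZGO.H68
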