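import Pool.Agent.ZGO.StmtsA

/-!
# Row THT of ZGO (helper68)

A finitely generated torsion group has finitely many homomorphisms to `QZ`.
-/

set_option autoImplicit false

namespace Pool.Agent.ZGO.H68

/-- row THT -/
theorem tht : ThtStmt := by
  intro H _ _ htor
  obtain ⟨S, hS⟩ := (Group.fg_def.1 (inferInstance : Group.FG H) : (⊤ : Subgroup H).FG)
  -- the values at the generators
  have hfin : {v : S → QZ | ∀ s : S, orderOf (s : H) • v s = 0}.Finite := by
    have h1 : ∀ s : S, {u : QZ | orderOf (s : H) • u = 0}.Finite := fun s =>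
      AddCircle.finite_torsion _ (htor s).orderOf_pos
    have h2 := Set.Finite.pi (t := fun s : S => {u : QZ | orderOf (s : H) • u = 0}) h1
    refine h2.subset fun v hv => ?_
    intro s _
    exact hv s
  refine Set.Finite.of_finite_image (f := fun f : H → QZ => fun s : S => f s) ?_ ?_
  · refine hfin.subset ?_
    rintro _ ⟨f, hf, rfl⟩ s
    have hf' : ∀ a b, f (a * b) = f a + f b := hf
    have h1 : f 1 = 0 := by
      have := hf' 1 1
      rw [mul_one] at this
      exact left_eq_add.1 this
    have hpow : ∀ (x : H) (n : ℕ), f (x ^ n) = n • f x := by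
      intro x n
      induction n with
      | zero => rw [pow_zero, h1, zero_smul]
      | succ n ih => rw [pow_succ, hf', ih, succ_nsmul]
    show orderOf (s : H) • f s = 0
    rw [← hpow, pow_orderOf_eq_one, h1]
  · intro f hf f' hf' h
    have hf : ∀ a b, f (a * b) = f a + f b := hf
    have hf' : ∀ a b, f' (a * b) = f' a + f' b := hf'
    have h1 : f 1 = 0 := by
      have := hf 1 1
      rw [mul_one] at this
      exact left_eq_add.1 this
    have h1' : f' 1 = 0 := by
      have := hf' 1 1
      rw [mul_one] at this
      exact left_eq_add.1 this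
    funext x
    have hx : x ∈ Subgroup.closure (S : Set H) := by rw [hS]; exact Subgroup.mem_top x
    induction hx using Subgroup.closure_induction with
    | mem x hx => exact congrFun h ⟨x, hx⟩
    | one => rw [h1, h1']
    | mul x y _ _ hx hy => rw [hf, hf', hx, hy]
    | inv x _ hx =>
      have e1 := hf x⁻¹ x
      have e2 := hf' x⁻¹ x
      rw [inv_mul_cancel, h1] at e1
      rw [inv_mul_cancel, h1'] at e2
      have e3 : f x⁻¹ = - f x := (neg_eq_of_add_eq_zero_left e1.symm).symm
      have e4 : f' x⁻¹ = - f' x := (neg_eq_of_add_eq_zero_left e2.symm).symm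
      rw [e3, e4, hx]

end Pool.Agent.ZGO.H68
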